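import Pool.Agent.K1H79.TW.Stm

set_option autoImplicit false

namespace Pool.Agent.K1H74.TW

open NumberField Pool.Agent.K1H79.TW
open scoped Classical Pointwise

theorem t_CNT : S_CNT := by
  intro F _ _
  have hcard : Fintype.card {w : InfinitePlace F // w ≠ Units.dirichletUnitTheorem.w₀} = Units.rank F := by
    rw [← Fintype.card_fin (Units.rank F)]
    exact (Fintype.card_congr (Units.equivFinRank F)).symm
  have h := ZLattice.covolume.tendsto_card_div_pow (Units.unitLattice F)
    ((Units.basisUnitLattice F).reindex (Units.equivFinRank F))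
    (s := Metric.closedBall (0 : Units.dirichletUnitTheorem.logSpace F) 1)
    Metric.isBounded_closedBall measurableSet_closedBall
    ((convex_closedBall (0 : Units.dirichletUnitTheorem.logSpace F) 1).addHaar_frontier _)
  rw [hcard] at h
  have hvol : MeasureTheory.volume.real
      (Metric.closedBall (0 : Units.dirichletUnitTheorem.logSpace F) 1) = 2 ^ (Units.rank F) := by
    rw [MeasureTheory.measureReal_def, Real.volume_pi_closedBall _ zero_le_one, hcard, mul_one,
      ENNReal.toReal_ofReal (by positivity)]
  rw [hvol] at h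
  refine h.congr' ?_
  filter_upwards [Filter.eventually_ge_atTop 1] with T hT
  have hT0 : (0 : ℝ) < T := by exact_mod_cast hT
  congr 2
  unfold cnt
  refine (Nat.card_congr (Equiv.subtypeEquiv
    (Equiv.smulRight (inv_ne_zero hT0.ne' : (T : ℝ)⁻¹ ≠ 0)) fun x => ?_)).symm
  rw [Equiv.smulRight_apply, Set.mem_inter_iff, Set.smul_mem_smul_set_iff₀ (inv_ne_zero hT0.ne'),
    mem_closedBall_zero_iff, norm_smul, norm_inv, Real.norm_of_nonneg hT0.le,
    inv_mul_le_iff₀ hT0, mul_one, pi_norm_le_iff_of_nonneg hT0.le, and_comm]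
  rfl

end Pool.Agent.K1H74.TW
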