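import Pool.Agent.K1H79.TW.Stm
import Pool.Agent.K1H33.RM.Task

set_option autoImplicit false

namespace Pool.Agent.K1H74.TW

open NumberField Pool.Agent.K1H79.TW

theorem rr_nonneg (F : Type) [Field F] [NumberField F] (m : ℕ) : 0 ≤ rr F m := by
  unfold rr
  positivity

theorem rr_le (E K : Type) [Field E] [NumberField E] [Field K] [NumberField K] [Algebra E K] (m : ℕ)
    (hm : 1 ≤ m) (h : 0 < rr K m) : 1 ≤ rr E m := by
  unfold rr at *
  have h1 : 0 < Nat.card {𝔞 : Ideal (𝓞 K) // Ideal.absNorm 𝔞 = m} := by exact_mod_cast h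
  obtain ⟨⟨I, hI⟩⟩ := (Nat.card_pos_iff.1 h1).1
  have h2 : Nonempty {𝔞 : Ideal (𝓞 E) // Ideal.absNorm 𝔞 = m} :=
    ⟨⟨Ideal.relNorm (𝓞 E) I, by rw [Ideal.absNorm_relNorm, hI]⟩⟩
  have h3 : Finite {𝔞 : Ideal (𝓞 E) // Ideal.absNorm 𝔞 = m} :=
    (Ideal.finite_setOfPred_absNorm_eq m).to_subtype
  have h4 : 0 < Nat.card {𝔞 : Ideal (𝓞 E) // Ideal.absNorm 𝔞 = m} := Nat.card_pos
  exact_mod_cast h4

theorem t_DOM : S_DOM := by
  intro n ε hε
  obtain ⟨C, hC, h⟩ := Pool.Agent.K1H33.RM.t_RM n ε hε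
  refine ⟨C, hC, ?_⟩
  intro E K _ _ _ _ _ hK m hm
  rcases (rr_nonneg K m).eq_or_lt with h0 | h0
  · rw [← h0]
    have := rr_nonneg E m
    positivity
  · have h1 := rr_le E K m hm h0
    have h2 : rr K m ≤ C * (m : ℝ) ^ ε := h K hK m hm
    have h3 : 0 ≤ C * (m : ℝ) ^ ε := by positivity
    exact h2.trans (le_mul_of_one_le_right h3 h1)

end Pool.Agent.K1H74.TW
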